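import Mathlib

/-!
# The generating function of the partition numbers is not rational
-/

set_option autoImplicit false

namespace Pool.Agent.W526.PartSeries

open PowerSeries PowerSeries.WithPiTopology

/-- The generating function of the partition numbers times Euler's pentagonal series is `1`. -/
theorem mul_pentagonal :
    (PowerSeries.mk fun d => (Fintype.card (Nat.Partition d) : ℚ)) * pentagonalSeries ℚ = 1 := by
  let _ : TopologicalSpace ℚ := ⊥
  have _ : DiscreteTopology ℚ := ⟨rfl⟩
  have h1 := Nat.Partition.powerSeriesMk_card_restricted_eq_tprod ℚ (fun _ => True)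
  have h0 : (PowerSeries.mk fun d => (Fintype.card (Nat.Partition d) : ℚ)) =
      PowerSeries.mk (fun n ↦ ((Nat.Partition.restricted n (fun _ => True)).card : ℚ)) := by
    ext d
    simp [Nat.Partition.restricted, Finset.card_univ]
  have hm := (Nat.Partition.multipliable_powerSeriesMk_card_restricted ℚ (fun _ => True)).tprod_mul
    (multipliable_one_sub_X_pow ℚ)
  rw [h0, h1, ← tprod_one_sub_X_pow ℚ, ← hm]
  simp only [if_true, pow_mul]
  rw [show (fun b : ℕ => (∑' (j : ℕ), ((X : PowerSeries ℚ) ^ (b + 1)) ^ j) * (1 - X ^ (b + 1))) =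
    fun _ => 1 from ?_, tprod_one]
  ext1 b
  rw [tsum_pow_mul_one_sub_of_constantCoeff_eq_zero (by simp)]


theorem not_pentagonal {K m b : ℕ} (hm : m ≤ 2 * K) (h1 : pentagonal (-(K : ℤ)) < b)
    (h2 : b ≤ pentagonal (-(K : ℤ)) + m) : b ∉ Set.range pentagonal := by
  rintro ⟨j, rfl⟩
  have e1 := two_mul_natCast_pentagonal j
  have e2 := two_mul_natCast_pentagonal_neg (K : ℤ)
  zify at h1 h2 hm
  rcases le_or_gt j (K : ℤ) with hj | hj
  · rcases le_or_gt (-(K : ℤ)) j with hj' | hj'
    · nlinarith
    · nlinarith
  · nlinarith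

/-- The generating function of the partition numbers is not rational. -/
theorem not_rational (p q : Polynomial ℚ) (hq : q ≠ 0)
    (h : (q : PowerSeries ℚ) * (PowerSeries.mk fun d => (Fintype.card (Nat.Partition d) : ℚ)) =
      (p : PowerSeries ℚ)) : False := by
  have h1 : (q : PowerSeries ℚ) = (p : PowerSeries ℚ) * pentagonalSeries ℚ := by
    rw [← h, mul_assoc, mul_pentagonal, mul_one]
  have hp : p ≠ 0 := by
    rintro rfl
    simp at h1
    exact hq h1
  set m := p.natDegree with hm
  set K := m + q.natDegree + 1 with hK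
  set N := pentagonal (-(K : ℤ)) with hN
  have hNK : K ≤ N := by
    have e2 := two_mul_natCast_pentagonal_neg (K : ℤ)
    rw [← hN] at e2
    zify
    nlinarith [Int.natCast_nonneg K, (by positivity : (0:ℤ) ≤ (K:ℤ)^2)]
  have h2 := congrArg (PowerSeries.coeff (N + m)) h1
  rw [Polynomial.coeff_coe, Polynomial.coeff_eq_zero_of_natDegree_lt (by omega),
    PowerSeries.coeff_mul, Finset.sum_eq_single (m, N)] at h2
  · rw [Polynomial.coeff_coe, hN, coeff_pentagonalSeries_pentagonal] at h2
    have h3 : p.coeff m ≠ 0 := by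
      rw [hm, Polynomial.coeff_natDegree]
      exact Polynomial.leadingCoeff_ne_zero.mpr hp
    have h4 : ((Int.negOnePow (-(K : ℤ)) : ℤˣ) : ℤ) ≠ 0 := Units.ne_zero _
    have h5 : (((Int.negOnePow (-(K : ℤ)) : ℤˣ) : ℤ) : ℚ) ≠ 0 := by exact_mod_cast h4
    exact mul_ne_zero h3 h5 h2.symm
  · rintro ⟨a, b⟩ hab hne
    rw [Finset.HasAntidiagonal.mem_antidiagonal] at hab
    simp only at hab ⊢
    rw [Polynomial.coeff_coe]
    rcases lt_or_ge m a with ha | ha
    · rw [Polynomial.coeff_eq_zero_of_natDegree_lt (by omega), zero_mul]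
    · have hb : N < b := by
        rcases Nat.lt_or_ge N b with hb | hb
        · exact hb
        · exfalso
          apply hne
          have : a = m := by omega
          have : b = N := by omega
          simp [*]
      rw [coeff_pentagonalSeries_eq_zero ℚ (not_pentagonal (K := K) (m := m) (by omega) hb
        (by omega)), mul_zero]
  · intro h'
    exact absurd (by rw [Finset.HasAntidiagonal.mem_antidiagonal]; simp; omega) h'

end Pool.Agent.W526.PartSeries
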