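import Mathlib

/-!
# Chow groups of open unions of strata of the stacks of prestable curves of genus zero

`𝔐_{0,n}` is the stack of prestable curves of genus `0` with `n` markings.  Its strata correspond to
the prestable graphs of genus `0`: finite trees with `n` legs.  The Chow groups (rational
coefficients) of `𝔐_{0,n}` and of its open unions of strata are given by generators and relations:
decorated trees in normal form modulo isomorphisms and the WDVV relations.
-/

set_option autoImplicit false

open scoped Classical

namespace Pool.Agent.W526.Prestable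

/-- A finite graph with `n` legs: the vertices are the elements of `Fin k`, the leg `i` is attached
to the vertex `leg i`.  (The dual graph of a prestable curve of genus `0` with `n` markings: the
vertices are the components, the edges are the nodes, and the graph is a tree.) -/
structure LegGraph (n : ℕ) where
  k : ℕ
  G : SimpleGraph (Fin k)
  leg : Fin n → Fin k

namespace LegGraph

variable {n : ℕ} (Γ : LegGraph n)

/-- The flags (special points) at the vertex `v`: the half-edges from `v` to its neighbours `w`,
written `Sum.inl w`, and the legs `i` at `v`, written `Sum.inr i`. -/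
noncomputable def flags (v : Fin Γ.k) : Finset (Fin Γ.k ⊕ Fin n) :=
  Finset.univ.filter (fun h => (∃ w, h = Sum.inl w ∧ Γ.G.Adj v w) ∨ ∃ i, h = Sum.inr i ∧ Γ.leg i = v)

/-- The valence `n(v)`: the number of flags at `v`. -/
noncomputable def val (v : Fin Γ.k) : ℕ := (Γ.flags v).card

/-- `Γ'` arises from `Γ` by contracting edges: there is a surjective map from the vertices of `Γ`
to those of `Γ'` with connected fibres, inducing the adjacency relation and the legs of `Γ'`.
(Bijective maps are allowed: isomorphic graphs are contractions of each other.) -/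
def Contracts (Γ Γ' : LegGraph n) : Prop :=
  ∃ f : Fin Γ.k → Fin Γ'.k, Function.Surjective f ∧
    (∀ c, (Γ.G.induce {a | f a = c}).Preconnected) ∧
    (∀ c d, Γ'.G.Adj c d ↔ c ≠ d ∧ ∃ a b, f a = c ∧ f b = d ∧ Γ.G.Adj a b) ∧
    ∀ i, Γ'.leg i = f (Γ.leg i)

end LegGraph

/-- A set of graphs with `n` legs which is the set of dual graphs of an open substack of `𝔐_{0,n}`
that is a union of strata: it consists of trees, and contains with a tree all graphs arising from it
by contractions of edges (generisations of curves), in particular all graphs isomorphic to it. -/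
structure IsOpenUnionOfStrata {n : ℕ} (U : Set (LegGraph n)) : Prop where
  tree : ∀ Γ ∈ U, Γ.G.IsTree
  generize : ∀ Γ ∈ U, ∀ Γ' : LegGraph n, Γ.Contracts Γ' → Γ' ∈ U

/-- A decorated graph: an exponent `e v` and a flag `o v` for every vertex.  For a tree with a
decoration in normal form it stands for the decorated stratum class `[Γ, ∏ α_v]`, where `α_v` is
`κ_2 ^ (e v)` if `n(v) = 0`, `ψ_h ^ (e v)` if `n(v) = 1`, `ψ_h ^ (e v) + (-ψ_h') ^ (e v)` if
`n(v) = 2`, with `h = o v` and `h'` the other flag at `v`, and `1` if `n(v) ≥ 3`. -/
structure Decorated (n : ℕ) extends LegGraph n where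
  e : Fin k → ℕ
  o : Fin k → Fin k ⊕ Fin n

namespace Decorated

variable {n : ℕ}

/-- The decoration is in normal form: the exponents at the vertices of valence at least three
vanish, and at the vertices `v` of valence two `o v` is a flag at `v`. -/
def Normal (x : Decorated n) : Prop :=
  ∀ v, (3 ≤ x.val v → x.e v = 0) ∧ (x.val v = 2 → x.o v ∈ x.flags v)

/-- The codimension of the class of a decorated tree: the number `k - 1` of edges plus the degree of
the decoration (`κ_2` has degree two). -/
noncomputable def codim (x : Decorated n) : ℕ :=
  x.k - 1 + ∑ v, (if x.val v = 0 then 2 else 1) * x.e v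

/-- `f` is an isomorphism of the graphs of `x` and `y` compatible with the legs and exponents. -/
def IsIso (x y : Decorated n) (f : Fin x.k ≃ Fin y.k) : Prop :=
  (∀ a b, y.G.Adj (f a) (f b) ↔ x.G.Adj a b) ∧ (∀ i, y.leg i = f (x.leg i)) ∧
    ∀ a, y.e (f a) = x.e a

/-- The sign of an isomorphism: the product of `(-1) ^ (e v)` over the vertices `v` of valence two
whose chosen flag is not mapped to the chosen flag. -/
noncomputable def sign (x y : Decorated n) (f : Fin x.k ≃ Fin y.k) : ℚ :=
  ∏ v, if x.val v = 2 ∧ y.o (f v) ≠ Sum.map f id (x.o v) then (-1) ^ (x.e v) else 1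

/-- The vertex to which the half-edge from `a` to `b` is attached after splitting the vertex `v`:
the half-edges `Sum.inl b ∈ I` at `v` move to the new vertex `Fin.last k`. -/
noncomputable def att (x : Decorated n) (v : Fin x.k) (I : Finset (Fin x.k ⊕ Fin n))
    (a b : Fin x.k) : Fin (x.k + 1) :=
  if a = v ∧ Sum.inl b ∈ I then Fin.last x.k else a.castSucc

/-- Splitting of the vertex `v`: a new vertex `Fin.last k` is joined to `v` by an edge, and the
flags in `I` at `v` are moved to the new vertex. -/
noncomputable def split (x : Decorated n) (v : Fin x.k) (I : Finset (Fin x.k ⊕ Fin n)) :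
    Decorated n where
  k := x.k + 1
  G := SimpleGraph.fromRel (fun p q => (p = v.castSucc ∧ q = Fin.last x.k) ∨
    ∃ a b, x.G.Adj a b ∧ p = x.att v I a b ∧ q = x.att v I b a)
  leg i := if x.leg i = v ∧ Sum.inr i ∈ I then Fin.last x.k else (x.leg i).castSucc
  e := Fin.snoc (α := fun _ => ℕ) x.e 0
  o := Fin.snoc (α := fun _ => Fin (x.k + 1) ⊕ Fin n)
    (fun w => Sum.map (fun b => x.att v I b w) id (x.o w)) (Sum.inl v.castSucc)

/-- The sum of the splittings of `v` by the sets `I` of flags at `v` which contain `a`, `b` and do
not contain `c`, `d`. -/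
noncomputable def splitSum (x : Decorated n) (v : Fin x.k) (a b c d : Fin x.k ⊕ Fin n) :
    Decorated n →₀ ℚ :=
  ∑ I ∈ (x.flags v).powerset.filter (fun I => a ∈ I ∧ b ∈ I ∧ c ∉ I ∧ d ∉ I),
    Finsupp.single (x.split v I) 1

end Decorated

variable {n : ℕ}

/-- The generators of the Chow group of codimension `d` of the open union of strata `U`. -/
def IsGenerator (U : Set (LegGraph n)) (d : ℕ) (x : Decorated n) : Prop :=
  x.toLegGraph ∈ U ∧ x.Normal ∧ x.codim = d

/-- The decorated graphs which are not generators (not in normal form, not of codimension `d`, or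
supported on the complement of `U`). -/
def relZero (U : Set (LegGraph n)) (d : ℕ) : Set (Decorated n →₀ ℚ) :=
  {r | ∃ x, ¬ IsGenerator U d x ∧ r = Finsupp.single x 1}

/-- Isomorphic decorated trees in normal form give the same class, up to the sign of the
isomorphism. -/
def relIso (n : ℕ) : Set (Decorated n →₀ ℚ) :=
  {r | ∃ (x y : Decorated n) (f : Fin x.k ≃ Fin y.k), x.Normal ∧ y.Normal ∧ x.IsIso y f ∧
    r = Finsupp.single x 1 - Finsupp.single y (x.sign y f)}

/-- The WDVV relations: for a decorated tree in normal form and four different flags `a, b, c, d` at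
a vertex `v`, the sum of the splittings of `v` separating `a, b` from `c, d` equals the sum of those
separating `a, c` from `b, d`. -/
def relWDVV (n : ℕ) : Set (Decorated n →₀ ℚ) :=
  {r | ∃ (x : Decorated n) (v : Fin x.k) (a b c d : Fin x.k ⊕ Fin n), x.G.IsTree ∧ x.Normal ∧
    a ∈ x.flags v ∧ b ∈ x.flags v ∧ c ∈ x.flags v ∧ d ∈ x.flags v ∧ [a, b, c, d].Nodup ∧
    r = x.splitSum v a b c d - x.splitSum v a c b d}

/-- The relations in the Chow group of codimension `d` of the open union of strata `U`. -/
noncomputable def relations (U : Set (LegGraph n)) (d : ℕ) : Submodule ℚ (Decorated n →₀ ℚ) :=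
  Submodule.span ℚ (relZero U d ∪ relIso n ∪ relWDVV n)

/-- The Chow group `CH^d(U)` with rational coefficients of an open union of strata `U` of `𝔐_{0,n}`
(theorem of Bae and Schmitt): the vector space spanned by the decorated trees in normal form of
codimension `d` with underlying tree in `U`, modulo isomorphisms and the WDVV relations. -/
abbrev Chow (U : Set (LegGraph n)) (d : ℕ) : Type := (Decorated n →₀ ℚ) ⧸ relations U d

/-- The Hilbert series `H_U = ∑ dim CH^d(U) t^d`. -/
noncomputable def hilbertSeries (U : Set (LegGraph n)) : PowerSeries ℚ :=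
  PowerSeries.mk (fun d => (Module.finrank ℚ (Chow U d) : ℚ))

/-- The power series is the expansion of a rational function. -/
def IsRational (H : PowerSeries ℚ) : Prop :=
  ∃ p q : Polynomial ℚ, q ≠ 0 ∧ (q : PowerSeries ℚ) * H = (p : PowerSeries ℚ)

/-- The locus of the curves all of whose markings lie on one component `c` which meets all other
components: the dual graph is a star with centre `c`, and all legs are attached to `c`. -/
def starLocus (n : ℕ) : Set (LegGraph n) :=
  {Γ | ∃ c, (∀ i, Γ.leg i = c) ∧ ∀ a b, Γ.G.Adj a b ↔ a ≠ b ∧ (a = c ∨ b = c)}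

end Pool.Agent.W526.Prestable
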