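import Mathlib
import Pool.Agent.W526.Prestable

/-!
# The Chow groups of the star locus
-/

set_option autoImplicit false

open scoped Classical

namespace Pool.Agent.W526.Prestable

variable {n : ℕ}

theorem star_eq {Γ : LegGraph n} {c : Fin Γ.k}
    (h : ∀ a b, Γ.G.Adj a b ↔ a ≠ b ∧ (a = c ∨ b = c)) : Γ.G = SimpleGraph.starGraph c := by
  ext a b
  rw [h, SimpleGraph.starGraph_adj]

theorem isOpen_star (n : ℕ) : IsOpenUnionOfStrata (starLocus n) where
  tree := by
    rintro Γ ⟨c, -, h⟩
    rw [star_eq h]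
    exact SimpleGraph.isTree_starGraph c
  generize := by
    rintro Γ ⟨c, hl, h⟩ Γ' ⟨f, hs, -, ha, hleg⟩
    refine ⟨f c, fun i => by rw [hleg, hl], fun a b => ?_⟩
    rw [ha]
    refine and_congr_right fun hab => ⟨?_, ?_⟩
    · rintro ⟨a', b', rfl, rfl, h'⟩
      rcases ((h _ _).1 h').2 with rfl | rfl
      · exact Or.inl rfl
      · exact Or.inr rfl
    · rintro (rfl | rfl)
      · obtain ⟨b', rfl⟩ := hs b
        exact ⟨c, b', rfl, rfl, (h _ _).2 ⟨fun e => hab (by rw [e]), Or.inl rfl⟩⟩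
      · obtain ⟨a', rfl⟩ := hs a
        exact ⟨a', c, rfl, rfl, (h _ _).2 ⟨fun e => hab (by rw [e]), Or.inr rfl⟩⟩

/-- The center of a star. -/
def IsCenter (Γ : LegGraph n) (c : Fin Γ.k) : Prop :=
  (∀ i, Γ.leg i = c) ∧ ∀ a b, Γ.G.Adj a b ↔ a ≠ b ∧ (a = c ∨ b = c)

theorem mem_flags {Γ : LegGraph n} {v : Fin Γ.k} {h : Fin Γ.k ⊕ Fin n} :
    h ∈ Γ.flags v ↔ (∃ w, h = Sum.inl w ∧ Γ.G.Adj v w) ∨ ∃ i, h = Sum.inr i ∧ Γ.leg i = v := by
  simp [LegGraph.flags]

theorem flags_of_ne {Γ : LegGraph n} {c v : Fin Γ.k} (h : IsCenter Γ c) (hv : v ≠ c) :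
    Γ.flags v = {Sum.inl c} := by
  ext x
  rw [mem_flags, Finset.mem_singleton]
  constructor
  · rintro (⟨w, rfl, hw⟩ | ⟨i, rfl, hi⟩)
    · rcases ((h.2 _ _).1 hw).2 with e | e
      · exact absurd e hv
      · rw [e]
    · exact absurd (hi.symm.trans (h.1 i)) hv
  · rintro rfl
    exact Or.inl ⟨c, rfl, (h.2 _ _).2 ⟨hv, Or.inr rfl⟩⟩

theorem val_of_ne {Γ : LegGraph n} {c v : Fin Γ.k} (h : IsCenter Γ c) (hv : v ≠ c) :
    Γ.val v = 1 := by
  rw [LegGraph.val, flags_of_ne h hv, Finset.card_singleton]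

theorem val_center {Γ : LegGraph n} {c : Fin Γ.k} (h : IsCenter Γ c) : n ≤ Γ.val c := by
  have : (Finset.univ.map ⟨(Sum.inr : Fin n → Fin Γ.k ⊕ Fin n), Sum.inr_injective⟩) ⊆
      Γ.flags c := by
    intro x hx
    simp only [Finset.mem_map, Finset.mem_univ, true_and, Function.Embedding.coeFn_mk] at hx
    obtain ⟨i, rfl⟩ := hx
    exact mem_flags.2 (Or.inr ⟨i, rfl, h.1 i⟩)
  have h2 := Finset.card_le_card this
  rwa [Finset.card_map, Finset.card_univ, Fintype.card_fin] at h2

theorem val_ne_two {Γ : LegGraph n} {c : Fin Γ.k} (hn : 3 ≤ n) (h : IsCenter Γ c) (v : Fin Γ.k) :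
    Γ.val v ≠ 2 := by
  rcases eq_or_ne v c with rfl | hv
  · have := val_center h
    omega
  · rw [val_of_ne h hv]
    omega

/-- The multiset of the exponents plus one at the vertices different from `c`. -/
noncomputable def parts (x : Decorated n) (c : Fin x.k) : Multiset ℕ :=
  ((Finset.univ.filter (· ≠ c)).val.map (fun v => x.e v + 1))

theorem normal_iff (hn : 3 ≤ n) {x : Decorated n} {c : Fin x.k} (h : IsCenter x.toLegGraph c) :
    x.Normal ↔ x.e c = 0 := by
  constructor
  · intro hx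
    exact (hx c).1 (hn.trans (val_center h))
  · intro hx v
    refine ⟨fun hv => ?_, fun hv => absurd hv (val_ne_two hn h v)⟩
    rcases eq_or_ne v c with rfl | hv'
    · exact hx
    · rw [val_of_ne h hv'] at hv
      omega

theorem codim_eq (hn : 3 ≤ n) {x : Decorated n} {c : Fin x.k} (h : IsCenter x.toLegGraph c)
    (hx : x.e c = 0) : x.codim = (parts x c).sum := by
  have h1 : (parts x c).sum = ∑ v ∈ Finset.univ.filter (· ≠ c), (x.e v + 1) := rfl
  have h2 : ∀ v, (if x.val v = 0 then 2 else 1) * x.e v = x.e v := by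
    intro v
    rw [if_neg, one_mul]
    rcases eq_or_ne v c with rfl | hv
    · have := val_center h
      omega
    · rw [val_of_ne h hv]
      omega
  have h3 : ∑ v, x.e v = ∑ v ∈ Finset.univ.filter (· ≠ c), x.e v := by
    rw [Finset.sum_filter_of_ne]
    intro v _ hv e
    rw [e] at hv
    exact hv hx
  have h4 : (Finset.univ.filter (· ≠ c)).card = x.k - 1 := by
    rw [Finset.filter_ne', Finset.card_erase_of_mem (Finset.mem_univ _), Finset.card_univ,
      Fintype.card_fin]
  rw [h1, Finset.sum_add_distrib, Finset.sum_const, smul_eq_mul, mul_one, h4,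
    Decorated.codim, Finset.sum_congr rfl (fun v _ => h2 v), h3, add_comm]

/-- The center is the vertex of the first leg. -/
theorem center_eq (hn : 3 ≤ n) {Γ : LegGraph n} {c : Fin Γ.k} (h : IsCenter Γ c) :
    Γ.leg ⟨0, by omega⟩ = c := h.1 _

/-- The center as a function. -/
def ctr (hn : 3 ≤ n) (Γ : LegGraph n) : Fin Γ.k := Γ.leg ⟨0, by omega⟩

theorem isGenerator_iff (hn : 3 ≤ n) (d : ℕ) (x : Decorated n) :
    IsGenerator (starLocus n) d x ↔
      IsCenter x.toLegGraph (ctr hn x.toLegGraph) ∧ x.e (ctr hn x.toLegGraph) = 0 ∧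
        (parts x (ctr hn x.toLegGraph)).sum = d := by
  constructor
  · rintro ⟨⟨c, hc⟩, hN, hd⟩
    have hc' : IsCenter x.toLegGraph c := hc
    have e : ctr hn x.toLegGraph = c := center_eq hn hc'
    rw [e]
    have h0 := (normal_iff hn hc').1 hN
    exact ⟨hc', h0, by rw [← codim_eq hn hc' h0, hd]⟩
  · rintro ⟨hc, h0, hd⟩
    exact ⟨⟨_, hc⟩, (normal_iff hn hc).2 h0, by rw [codim_eq hn hc h0, hd]⟩

/-- The partition of a generator. -/
noncomputable def toPart (hn : 3 ≤ n) (d : ℕ) (x : Decorated n)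
    (h : IsGenerator (starLocus n) d x) : Nat.Partition d where
  parts := parts x (ctr hn x.toLegGraph)
  parts_pos := by
    intro i hi
    rw [parts, Multiset.mem_map] at hi
    obtain ⟨v, -, rfl⟩ := hi
    omega
  parts_sum := ((isGenerator_iff hn d x).1 h).2.2

/-- The map from the generators to the partitions. -/
noncomputable def gmap (hn : 3 ≤ n) (d : ℕ) (x : Decorated n) : Nat.Partition d →₀ ℚ :=
  if h : IsGenerator (starLocus n) d x then Finsupp.single (toPart hn d x h) 1 else 0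

noncomputable def lmap (hn : 3 ≤ n) (d : ℕ) : (Decorated n →₀ ℚ) →ₗ[ℚ] (Nat.Partition d →₀ ℚ) :=
  Finsupp.linearCombination ℚ (gmap hn d)

theorem lmap_single (hn : 3 ≤ n) (d : ℕ) (x : Decorated n) (r : ℚ) :
    lmap hn d (Finsupp.single x r) = r • gmap hn d x := by
  rw [lmap, Finsupp.linearCombination_single]

theorem gmap_of_not (hn : 3 ≤ n) (d : ℕ) (x : Decorated n) (h : ¬ x.toLegGraph ∈ starLocus n) :
    gmap hn d x = 0 := by
  rw [gmap, dif_neg]
  exact fun h' => h h'.1


theorem iso_center {x y : Decorated n} {f : Fin x.k ≃ Fin y.k} (h : x.IsIso y f) {c : Fin x.k}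
    (hc : IsCenter x.toLegGraph c) : IsCenter y.toLegGraph (f c) := by
  refine ⟨fun i => by rw [h.2.1, hc.1], fun a b => ?_⟩
  obtain ⟨a, rfl⟩ := f.surjective a
  obtain ⟨b, rfl⟩ := f.surjective b
  rw [h.1, hc.2]
  simp [f.injective.ne_iff]

theorem iso_symm {x y : Decorated n} {f : Fin x.k ≃ Fin y.k} (h : x.IsIso y f) :
    y.IsIso x f.symm := by
  refine ⟨fun a b => ?_, fun i => ?_, fun a => ?_⟩
  · rw [← h.1, Equiv.apply_symm_apply, Equiv.apply_symm_apply]
  · rw [h.2.1, Equiv.symm_apply_apply]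
  · rw [← h.2.2, Equiv.apply_symm_apply]

theorem iso_parts {x y : Decorated n} {f : Fin x.k ≃ Fin y.k} (h : x.IsIso y f) (c : Fin x.k) :
    parts y (f c) = parts x c := by
  have h1 : (Finset.univ.filter (· ≠ f c)) =
      (Finset.univ.filter (· ≠ c)).map f.toEmbedding := by
    ext v
    simp only [Finset.mem_filter, Finset.mem_univ, true_and, Finset.mem_map,
      Equiv.coe_toEmbedding]
    constructor
    · intro hv
      exact ⟨f.symm v, fun e => hv (by rw [← e, Equiv.apply_symm_apply]), f.apply_symm_apply v⟩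
    · rintro ⟨w, hw, rfl⟩
      exact fun e => hw (f.injective e)
  rw [parts, h1, Finset.map_val, Multiset.map_map, parts]
  refine Multiset.map_congr rfl fun v _ => ?_
  simp [h.2.2]

theorem iso_ctr (hn : 3 ≤ n) {x y : Decorated n} {f : Fin x.k ≃ Fin y.k} (h : x.IsIso y f) :
    ctr hn y.toLegGraph = f (ctr hn x.toLegGraph) := h.2.1 _

theorem iso_gen (hn : 3 ≤ n) (d : ℕ) {x y : Decorated n} {f : Fin x.k ≃ Fin y.k}
    (h : x.IsIso y f) (hx : IsGenerator (starLocus n) d x) : IsGenerator (starLocus n) d y := by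
  rw [isGenerator_iff hn] at hx ⊢
  rw [iso_ctr hn h]
  exact ⟨iso_center h hx.1, by rw [h.2.2, hx.2.1], by rw [iso_parts h, hx.2.2]⟩

theorem iso_gmap (hn : 3 ≤ n) (d : ℕ) {x y : Decorated n} {f : Fin x.k ≃ Fin y.k}
    (h : x.IsIso y f) : gmap hn d x = gmap hn d y := by
  by_cases hx : IsGenerator (starLocus n) d x
  · have hy := iso_gen hn d h hx
    rw [gmap, gmap, dif_pos hx, dif_pos hy]
    congr 1
    apply Nat.Partition.ext
    change parts x _ = parts y _
    rw [iso_ctr hn h, iso_parts h]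
  · have hy : ¬ IsGenerator (starLocus n) d y := fun hy => hx (iso_gen hn d (iso_symm h) hy)
    rw [gmap, gmap, dif_neg hx, dif_neg hy]

theorem sign_eq_one (hn : 3 ≤ n) {x y : Decorated n} (f : Fin x.k ≃ Fin y.k)
    (hx : x.toLegGraph ∈ starLocus n) : x.sign y f = 1 := by
  obtain ⟨c, hc⟩ := hx
  have hc' : IsCenter x.toLegGraph c := hc
  rw [Decorated.sign]
  refine Finset.prod_eq_one fun v _ => ?_
  rw [if_neg]
  exact fun h => val_ne_two hn hc' v h.1

theorem split_adj (x : Decorated n) (v : Fin x.k) (I : Finset (Fin x.k ⊕ Fin n))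
    (p q : Fin (x.k + 1)) : (x.split v I).G.Adj p q ↔ p ≠ q ∧
      (((p = v.castSucc ∧ q = Fin.last x.k) ∨
        ∃ a b, x.G.Adj a b ∧ p = x.att v I a b ∧ q = x.att v I b a) ∨
      ((q = v.castSucc ∧ p = Fin.last x.k) ∨
        ∃ a b, x.G.Adj a b ∧ q = x.att v I a b ∧ p = x.att v I b a)) := Iff.rfl

theorem split_not_star (x : Decorated n) (v : Fin x.k) (I : Finset (Fin x.k ⊕ Fin n))
    {a c : Fin x.k ⊕ Fin n} (ha : a ∈ x.flags v) (hc : c ∈ x.flags v) (haI : a ∈ I)
    (hcI : c ∉ I) : (x.split v I).toLegGraph ∉ starLocus n := by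
  rintro ⟨z, hz⟩
  have hz' : IsCenter (x.split v I).toLegGraph z := hz
  clear hz
  have hVL : v.castSucc ≠ Fin.last x.k := (Fin.castSucc_lt_last v).ne
  have h1 : (x.split v I).G.Adj v.castSucc (Fin.last x.k) := by
    refine (split_adj x v I _ _).2 ⟨hVL, Or.inl (Or.inl ⟨rfl, rfl⟩)⟩
  have hbv : ∀ b, x.G.Adj v b → x.att v I b v = b.castSucc := by
    intro b hb
    rw [Decorated.att, if_neg]
    rintro ⟨rfl, -⟩
    exact x.G.loopless.irrefl _ hb
  have h2 : ∀ b, x.G.Adj v b → Sum.inl b ∈ I →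
      (x.split v I).G.Adj (Fin.last x.k) b.castSucc := by
    intro b hb hI
    refine (split_adj x v I _ _).2 ⟨(Fin.castSucc_lt_last b).ne', Or.inl (Or.inr ⟨v, b, hb, ?_, (hbv b hb).symm⟩)⟩
    rw [Decorated.att, if_pos ⟨rfl, hI⟩]
  have h3 : ∀ b, x.G.Adj v b → Sum.inl b ∉ I →
      (x.split v I).G.Adj v.castSucc b.castSucc := by
    intro b hb hI
    refine (split_adj x v I _ _).2 ⟨fun e => hb.ne (Fin.castSucc_injective _ e),
      Or.inl (Or.inr ⟨v, b, hb, ?_, (hbv b hb).symm⟩)⟩
    rw [Decorated.att, if_neg]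
    exact fun h => hI h.2
  rcases eq_or_ne z (Fin.last x.k) with rfl | hzL
  · rcases mem_flags.1 hc with ⟨b, rfl, hb⟩ | ⟨i, rfl, hi⟩
    · rcases ((hz'.2 _ _).1 (h3 b hb hcI)).2 with e | e
      · exact hVL e
      · exact (Fin.castSucc_lt_last b).ne e
    · have := hz'.1 i
      change (if x.leg i = v ∧ Sum.inr i ∈ I then Fin.last x.k else (x.leg i).castSucc) = _ at this
      rw [if_neg (fun h => hcI h.2)] at this
      exact (Fin.castSucc_lt_last _).ne this
  · have hVz : v.castSucc = z := by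
      rcases ((hz'.2 _ _).1 h1).2 with e | e
      · exact e
      · exact absurd e.symm hzL
    rcases mem_flags.1 ha with ⟨b, rfl, hb⟩ | ⟨i, rfl, hi⟩
    · rcases ((hz'.2 _ _).1 (h2 b hb haI)).2 with e | e
      · exact hzL e.symm
      · rw [← hVz] at e
        exact hb.ne (Fin.castSucc_injective _ e).symm
    · have := hz'.1 i
      change (if x.leg i = v ∧ Sum.inr i ∈ I then Fin.last x.k else (x.leg i).castSucc) = _ at this
      rw [if_pos ⟨hi, haI⟩] at this
      exact hzL this.symm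

theorem lmap_splitSum (hn : 3 ≤ n) (k : ℕ) (x : Decorated n) (v : Fin x.k)
    {a b c d : Fin x.k ⊕ Fin n} (ha : a ∈ x.flags v) (hc : c ∈ x.flags v) :
    lmap hn k (x.splitSum v a b c d) = 0 := by
  rw [Decorated.splitSum, map_sum]
  refine Finset.sum_eq_zero fun I hI => ?_
  rw [Finset.mem_filter] at hI
  rw [lmap_single, gmap_of_not hn k _ (split_not_star x v I ha hc hI.2.1 hI.2.2.2.1), smul_zero]

theorem relations_le (hn : 3 ≤ n) (d : ℕ) :
    relations (starLocus n) d ≤ LinearMap.ker (lmap hn d) := by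
  rw [relations, Submodule.span_le]
  rintro r ((⟨x, hx, rfl⟩ | ⟨x, y, f, -, -, hf, rfl⟩) | ⟨x, v, a, b, c, e, -, -, ha, hb, hc, -, -, rfl⟩)
  · rw [SetLike.mem_coe, LinearMap.mem_ker, lmap_single, gmap, dif_neg hx, smul_zero]
  · rw [SetLike.mem_coe, LinearMap.mem_ker, map_sub, lmap_single, lmap_single, ← iso_gmap hn d hf]
    by_cases hx : x.toLegGraph ∈ starLocus n
    · rw [sign_eq_one hn f hx, sub_self]
    · rw [gmap_of_not hn d x hx, smul_zero, smul_zero, sub_self]
  · rw [SetLike.mem_coe, LinearMap.mem_ker, map_sub, lmap_splitSum hn d x v ha hc,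
      lmap_splitSum hn d x v ha hb, sub_self]

/-- The forward map on the Chow group. -/
noncomputable def fwd (hn : 3 ≤ n) (d : ℕ) :
    Chow (starLocus n) d →ₗ[ℚ] (Nat.Partition d →₀ ℚ) :=
  (relations (starLocus n) d).liftQ (lmap hn d) (relations_le hn d)

/-- The class of a decorated graph in the Chow group. -/
noncomputable def cls (d : ℕ) (x : Decorated n) : Chow (starLocus n) d :=
  (relations (starLocus n) d).mkQ (Finsupp.single x 1)

theorem fwd_cls (hn : 3 ≤ n) (d : ℕ) (x : Decorated n) : fwd hn d (cls d x) = gmap hn d x := by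
  rw [fwd, cls, Submodule.mkQ_apply, Submodule.liftQ_apply, lmap_single, one_smul]

theorem cls_not (d : ℕ) (x : Decorated n) (hx : ¬ IsGenerator (starLocus n) d x) :
    cls d x = 0 := by
  rw [cls, Submodule.mkQ_apply, Submodule.Quotient.mk_eq_zero]
  exact Submodule.subset_span (Or.inl (Or.inl ⟨x, hx, rfl⟩))

theorem cls_iso (hn : 3 ≤ n) (d : ℕ) {x y : Decorated n} {f : Fin x.k ≃ Fin y.k}
    (h : x.IsIso y f) (hx : IsGenerator (starLocus n) d x) : cls d x = cls d y := by
  have hy := iso_gen hn d h hx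
  have h0 : Finsupp.single x 1 - Finsupp.single y (x.sign y f) ∈ relations (starLocus n) d :=
    Submodule.subset_span (Or.inl (Or.inr ⟨x, y, f, hx.2.1, hy.2.1, h, rfl⟩))
  rw [sign_eq_one hn f hx.1] at h0
  rw [cls, cls, Submodule.mkQ_apply, Submodule.mkQ_apply]
  exact (Submodule.Quotient.eq _).2 h0


/-- Functions with the same values, counted with multiplicity, differ by a bijection. -/
theorem exists_equiv {α β : Type} [Fintype α] [Fintype β] (f : α → ℕ) (g : β → ℕ)
    (h : (Finset.univ : Finset α).val.map f = (Finset.univ : Finset β).val.map g) :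
    ∃ e : α ≃ β, ∀ a, g (e a) = f a := by
  have hc : ∀ y, Fintype.card {a // f a = y} = Fintype.card {b // g b = y} := by
    intro y
    have h1 := congrArg (Multiset.count y) h
    rw [Multiset.count_map, Multiset.count_map] at h1
    rw [Fintype.card_subtype, Fintype.card_subtype]
    simp only [eq_comm (a := y)] at h1
    exact h1
  refine ⟨(Equiv.sigmaFiberEquiv f).symm.trans ((Equiv.sigmaCongrRight fun y =>
    Fintype.equivOfCardEq (hc y)).trans (Equiv.sigmaFiberEquiv g)), fun a => ?_⟩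
  simp only [Equiv.trans_apply, Equiv.sigmaFiberEquiv, Equiv.coe_fn_mk, Equiv.sigmaCongrRight_apply,
    Equiv.coe_fn_symm_mk]
  exact (Fintype.equivOfCardEq (hc (f a)) ⟨a, rfl⟩).2

/-- The standard star of a list of positive integers. -/
def std (n : ℕ) (l : List ℕ) : Decorated n where
  k := l.length + 1
  G := SimpleGraph.starGraph 0
  leg _ := 0
  e := Fin.cons (α := fun _ => ℕ) 0 (fun i => l.get i - 1)
  o _ := Sum.inl 0

theorem std_center (n : ℕ) (l : List ℕ) : IsCenter (std n l).toLegGraph (0 : Fin (l.length + 1)) :=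
  ⟨fun _ => rfl, fun _ _ => SimpleGraph.starGraph_adj⟩

/-- Two decorated stars with the same parts are isomorphic. -/
theorem exists_iso {x y : Decorated n} {c : Fin x.k} {d : Fin y.k}
    (hc : IsCenter x.toLegGraph c) (hd : IsCenter y.toLegGraph d) (h0 : x.e c = y.e d)
    (h : parts x c = parts y d) : ∃ f : Fin x.k ≃ Fin y.k, x.IsIso y f := by
  have key : ∀ (z : Decorated n) (c : Fin z.k), parts z c =
      (Finset.univ : Finset {v : Fin z.k // v ≠ c}).val.map (fun v => z.e v.1 + 1) := by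
    intro z c
    rw [parts, ← Finset.subtype_map, ← Finset.subtype_univ]
    simp [Finset.map_val, Multiset.map_map]
  rw [key x c, key y d] at h
  obtain ⟨e, he⟩ := exists_equiv _ _ h
  let f : Fin x.k ≃ Fin y.k := (Equiv.optionSubtypeNe c).symm.trans
    ((Equiv.optionCongr e).trans (Equiv.optionSubtypeNe d))
  have hfc : f c = d := by simp [f]
  have hfn : ∀ v (hv : v ≠ c), f v = (e ⟨v, hv⟩).1 := by
    intro v hv
    simp [f, Equiv.optionSubtypeNe_symm_of_ne hv]
  have hff : ∀ v, f v = d ↔ v = c := by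
    intro v
    rw [← hfc, f.injective.eq_iff]
  refine ⟨f, fun a b => ?_, fun i => ?_, fun a => ?_⟩
  · rw [hd.2, hc.2, hff, hff, f.injective.ne_iff]
  · rw [hd.1, hc.1, hfc]
  · rcases eq_or_ne a c with rfl | ha
    · rw [hfc, h0]
    · rw [hfn a ha]
      have := he ⟨a, ha⟩
      simpa using this


/-- The standard star of a partition. -/
noncomputable def stdp (n : ℕ) {d : ℕ} (p : Nat.Partition d) : Decorated n := std n p.parts.toList

theorem parts_std (n : ℕ) {d : ℕ} (p : Nat.Partition d) :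
    parts (stdp n p) (0 : Fin (p.parts.toList.length + 1)) = p.parts := by
  set l := p.parts.toList with hl
  have hpos : ∀ i : Fin l.length, l.get i - 1 + 1 = l.get i := by
    intro i
    have h1 : l.get i ∈ p.parts := by
      rw [← Multiset.mem_toList]
      exact List.get_mem _ _
    have := p.parts_pos h1
    omega
  have h2 : (Finset.univ.filter (· ≠ (0 : Fin (l.length + 1)))) =
      Finset.univ.map (Fin.succEmb l.length) := by
    ext v
    simp only [Finset.mem_filter, Finset.mem_univ, true_and, Finset.mem_map, Fin.coe_succEmb]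
    exact Fin.exists_succ_eq.symm
  change (Finset.univ.filter (· ≠ (0 : Fin (l.length + 1)))).val.map
    (fun v => Fin.cons (α := fun _ => ℕ) 0 (fun i => l.get i - 1) v + 1) = p.parts
  rw [h2, Finset.map_val, Multiset.map_map]
  have h3 : ((fun v => Fin.cons (α := fun _ => ℕ) 0 (fun i => l.get i - 1) v + 1) ∘
      Fin.succEmb l.length) = l.get := by
    ext i
    simp only [Function.comp, Fin.coe_succEmb, Fin.cons_succ]
    exact hpos i
  rw [h3, ← Multiset.coe_toList p.parts, ← hl]
  have h4 : (Finset.univ : Finset (Fin l.length)).val = (List.finRange l.length : Multiset _) :=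
    rfl
  rw [h4, Multiset.map_coe, List.map_get_finRange]

theorem std_gen (hn : 3 ≤ n) {d : ℕ} (p : Nat.Partition d) :
    IsGenerator (starLocus n) d (stdp n p) := by
  rw [isGenerator_iff hn]
  exact ⟨std_center n _, rfl, (congrArg Multiset.sum (parts_std n p)).trans p.parts_sum⟩

theorem gmap_std (hn : 3 ≤ n) {d : ℕ} (p : Nat.Partition d) :
    gmap hn d (stdp n p) = Finsupp.single p 1 := by
  rw [gmap, dif_pos (std_gen hn p)]
  congr 1
  apply Nat.Partition.ext
  exact parts_std n p

/-- The backward map. -/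
noncomputable def bwd (n d : ℕ) : (Nat.Partition d →₀ ℚ) →ₗ[ℚ] Chow (starLocus n) d :=
  Finsupp.linearCombination ℚ (fun p => cls d (stdp n p))

theorem cls_eq (hn : 3 ≤ n) (d : ℕ) (x : Decorated n) : bwd n d (gmap hn d x) = cls d x := by
  by_cases hx : IsGenerator (starLocus n) d x
  · rw [gmap, dif_pos hx, bwd, Finsupp.linearCombination_single, one_smul]
    have h1 := (isGenerator_iff hn d x).1 hx
    obtain ⟨f, hf⟩ := exists_iso (std_center n (toPart hn d x hx).parts.toList) h1.1
      (by rw [h1.2.1]; rfl) (parts_std n (toPart hn d x hx))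
    exact cls_iso hn d hf (std_gen hn _)
  · rw [gmap, dif_neg hx, map_zero, cls_not d x hx]

/-- The Chow group of codimension `d` of the star locus has a basis indexed by the partitions
of `d`. -/
noncomputable def chowEquiv (hn : 3 ≤ n) (d : ℕ) :
    Chow (starLocus n) d ≃ₗ[ℚ] (Nat.Partition d →₀ ℚ) :=
  LinearEquiv.ofLinearMap (fwd hn d) (bwd n d)
    (by
      ext1 p
      ext1
      simp only [LinearMap.comp_apply, Finsupp.lsingle_apply, LinearMap.id_apply]
      rw [bwd, Finsupp.linearCombination_single, one_smul, fwd_cls, gmap_std hn])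
    (by
      apply Submodule.linearMap_qext
      ext1 x
      ext1
      change bwd n d (fwd hn d (cls d x)) = cls d x
      rw [fwd_cls, cls_eq])

theorem finite_chow (hn : 3 ≤ n) (d : ℕ) : Module.Finite ℚ (Chow (starLocus n) d) :=
  Module.Finite.equiv (chowEquiv hn d).symm

theorem finrank_chow (hn : 3 ≤ n) (d : ℕ) :
    Module.finrank ℚ (Chow (starLocus n) d) = Fintype.card (Nat.Partition d) := by
  rw [(chowEquiv hn d).finrank_eq, Module.finrank_finsupp_self]

end Pool.Agent.W526.Prestable
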